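import Pool.Agent.T2h14.FD.Stm

/-!
Task BASE: finite sets are contained in small subfields.
-/

set_option autoImplicit false

open MvPowerSeries IsLocalRing

namespace Pool.Agent.T2h14.FD

theorem t_BASE : BASE := by
  intro p _ k _ _ T
  classical
  let F : Subfield k := (frobenius k p).fieldRange
  have hpos : 0 < p := (Fact.out : p.Prime).pos
  have hint : ∀ t : k, IsIntegral F t := by
    intro t
    have h1 : IsIntegral F (t ^ p) := isIntegral_algebraMap (R := F) (A := k) (x := ⟨t ^ p, ⟨t, rfl⟩⟩)
    exact IsIntegral.of_pow hpos h1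
  let L' : IntermediateField F k := IntermediateField.adjoin F (T : Set k)
  have hfd : FiniteDimensional F L' :=
    IntermediateField.finiteDimensional_adjoin (fun x _ => hint x)
  let b := Module.finBasis F L'
  refine ⟨L'.toSubfield, fun t ht => IntermediateField.subset_adjoin F _ ht, ?_,
    Finset.univ.image (fun i => (b i : k)), ?_, ?_⟩
  · intro x
    exact L'.algebraMap_mem ⟨x ^ p, ⟨x, rfl⟩⟩
  · intro x hx
    obtain ⟨i, -, rfl⟩ := Finset.mem_image.1 hx
    exact (b i).2
  · intro y hy
    have hy' : y ∈ Submodule.span F ((Finset.univ.image (fun i => (b i : k)) : Finset k) : Set k) := by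
      have h1 : (∑ i, b.repr ⟨y, hy⟩ i • (b i)) = (⟨y, hy⟩ : L') := b.sum_repr _
      have h2 : y = ∑ i, b.repr ⟨y, hy⟩ i • (b i : k) := by
        have h3 := congrArg (fun z : L' => (z : k)) h1
        simp only at h3
        refine h3.symm.trans ?_
        refine (map_sum L'.val _ _).trans ?_
        exact Finset.sum_congr rfl fun i _ => rfl
      rw [h2]
      refine Submodule.sum_mem _ fun i _ => Submodule.smul_mem _ _ (Submodule.subset_span ?_)
      exact Finset.mem_coe.2 (Finset.mem_image_of_mem _ (Finset.mem_univ i))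
    rw [Submodule.mem_span_finset] at hy'
    obtain ⟨f, -, hf⟩ := hy'
    choose c hc using fun a => (f a).2
    refine ⟨c, ?_⟩
    rw [← hf]
    refine Finset.sum_congr rfl fun a _ => ?_
    rw [Subfield.smul_def]
    rw [← hc a]
    rfl

end Pool.Agent.T2h14.FD
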