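import Pool.Agent.T2h14.FD.Stm

/-!
Task EVAL: evaluation of power series in complete rings.
-/

set_option autoImplicit false

open MvPowerSeries IsLocalRing

namespace Pool.Agent.T2h14.FD

/-- the evaluation modulo `I ^ m` of a polynomial -/
lemma eval_aux {k A : Type} [Field k] [CommRing A] (I : Ideal A) (n : ℕ) (ψ : k →+* A)
    (y : Fin n → A) (hy : ∀ i, y i ∈ I) (m : ℕ) (P : MvPolynomial (Fin n) k)
    (hP : P ∈ MvPolynomial.idealOfVars (Fin n) k ^ m) : MvPolynomial.eval₂Hom ψ y P ∈ I ^ m := by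
  have h1 : (MvPolynomial.idealOfVars (Fin n) k).map (MvPolynomial.eval₂Hom ψ y) ≤ I := by
    rw [MvPolynomial.idealOfVars, Ideal.map_span, Ideal.span_le]
    rintro _ ⟨_, ⟨i, rfl⟩, rfl⟩
    simpa using hy i
  have h2 := Ideal.mem_map_of_mem (MvPolynomial.eval₂Hom ψ y) hP
  rw [Ideal.map_pow] at h2
  exact Ideal.pow_right_mono h1 m h2

/-- the evaluation modulo `I ^ m` -/
noncomputable def evalMod {k A : Type} [Field k] [CommRing A] (I : Ideal A) (n : ℕ) (ψ : k →+* A)
    (y : Fin n → A) (hy : ∀ i, y i ∈ I) (m : ℕ) : Rn n k →+* A ⧸ I ^ m where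
  toFun f := Ideal.Quotient.mk (I ^ m) (MvPolynomial.eval₂Hom ψ y (truncTotal m f))
  map_one' := by
    rw [← map_one (Ideal.Quotient.mk (I ^ m)), Ideal.Quotient.eq,
      ← map_one (MvPolynomial.eval₂Hom ψ y), ← map_sub]
    refine eval_aux I n ψ y hy m _ ?_
    rw [MvPolynomial.mem_pow_idealOfVars_iff']
    intro x hx
    rw [MvPolynomial.coeff_sub, coeff_truncTotal _ hx, ← MvPolynomial.coe_one,
      MvPolynomial.coeff_coe, sub_self]
  map_mul' f g := by
    rw [← map_mul (Ideal.Quotient.mk (I ^ m)), Ideal.Quotient.eq,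
      ← map_mul (MvPolynomial.eval₂Hom ψ y), ← map_sub]
    exact eval_aux I n ψ y hy m _ (truncTotal_mul_sub_mul_truncTotal_mem_pow_idealOfVars f g)
  map_zero' := by simp
  map_add' f g := by simp

lemma evalMod_apply {k A : Type} [Field k] [CommRing A] (I : Ideal A) (n : ℕ) (ψ : k →+* A)
    (y : Fin n → A) (hy : ∀ i, y i ∈ I) (m : ℕ) (f : Rn n k) :
    evalMod I n ψ y hy m f = Ideal.Quotient.mk (I ^ m)
      (MvPolynomial.eval₂Hom ψ y (truncTotal m f)) := rfl

theorem t_EVAL : EVAL := by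
  intro k A _ _ I _ n ψ y hy
  have hcomp : ∀ {m m' : ℕ} (hle : m ≤ m'),
      (Ideal.Quotient.factorPow I hle).comp (evalMod I n ψ y hy m') = evalMod I n ψ y hy m := by
    intro m m' hle
    ext f
    rw [RingHom.comp_apply, evalMod_apply, evalMod_apply]
    simp only [Ideal.Quotient.factorPow, Ideal.Quotient.factor_mk]
    rw [Ideal.Quotient.eq, ← map_sub]
    exact eval_aux I n ψ y hy m _
      (truncTotal_sub_truncTotal_mem_pow_idealOfVars hle (le_refl _) f)
  let E : Rn n k →+* A := IsAdicComplete.liftRingHom I (evalMod I n ψ y hy) hcomp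
  have hE : ∀ (m : ℕ) (f : Rn n k), Ideal.Quotient.mk (I ^ m) (E f) = evalMod I n ψ y hy m f :=
    fun m f => IsAdicComplete.mk_liftRingHom I (evalMod I n ψ y hy) hcomp m f
  have hpoly : ∀ P : MvPolynomial (Fin n) k, E (P : Rn n k) = MvPolynomial.eval₂Hom ψ y P := by
    intro P
    rw [IsHausdorff.eq_iff_smodEq (I := I)]
    intro m
    rw [SModEq.sub_mem]
    simp only [smul_eq_mul, Ideal.mul_top]
    rw [← Ideal.Quotient.eq, hE, evalMod_apply, Ideal.Quotient.eq, ← map_sub]
    refine eval_aux I n ψ y hy m _ ?_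
    rw [MvPolynomial.mem_pow_idealOfVars_iff']
    intro x hx
    rw [MvPolynomial.coeff_sub, coeff_truncTotal _ hx, MvPolynomial.coeff_coe, sub_self]
  refine ⟨E, ?_, ?_, ?_⟩
  · intro c
    have h := hpoly (MvPolynomial.C c)
    rw [MvPolynomial.coe_C] at h
    simpa using h
  · intro i
    have h := hpoly (MvPolynomial.X i)
    rw [MvPolynomial.coe_X] at h
    simpa using h
  · intro m f hf
    rw [← Ideal.Quotient.eq_zero_iff_mem, hE, evalMod_apply]
    have h0 : truncTotal m f = 0 := by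
      ext α
      by_cases h : α.degree < m
      · rw [coeff_truncTotal _ h, hf α h, MvPolynomial.coeff_zero]
      · rw [coeff_truncTotal_eq_zero _ (not_lt.1 h), MvPolynomial.coeff_zero]
    rw [h0, map_zero, map_zero]

end Pool.Agent.T2h14.FD
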