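import Pool.Agent.T2h14.FD.Stm

/-!
Tasks POW, CLO, COMM, COMP: powers of the maximal ideal, closed ideals, completeness.
-/

set_option autoImplicit false

open MvPowerSeries IsLocalRing

namespace Pool.Agent.T2h14.FD

lemma mem_max_iff (k : Type) [Field k] (n : ℕ) (f : Rn n k) :
    f ∈ maximalIdeal (Rn n k) ↔ constantCoeff f = 0 := by
  rw [mem_maximalIdeal, mem_nonunits_iff, MvPowerSeries.isUnit_iff_constantCoeff, isUnit_iff_ne_zero,
    not_not]

lemma ordGe_mul {n : ℕ} {k : Type} [Field k] {a b : ℕ} {f g : Rn n k} (hf : OrdGe a f)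
    (hg : OrdGe b g) : OrdGe (a + b) (f * g) := by
  classical
  intro α hα
  rw [coeff_mul]
  refine Finset.sum_eq_zero fun q hq => ?_
  rw [Finset.HasAntidiagonal.mem_antidiagonal] at hq
  have h1 : q.1.degree + q.2.degree = α.degree := by rw [← hq, map_add]
  by_cases h : q.1.degree < a
  · rw [hf _ h, zero_mul]
  · rw [hg _ (by omega), mul_zero]

/-- the ideal of the power series of order at least `m` -/
def ordIdeal (n : ℕ) (k : Type) [Field k] (m : ℕ) : Ideal (Rn n k) where
  carrier := {f | OrdGe m f}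
  zero_mem' := fun α _ => by simp
  add_mem' := fun {f g} hf hg α hα => by
    rw [map_add, hf α hα, hg α hα, add_zero]
  smul_mem' := fun c f hf => by
    have h : OrdGe 0 c := fun α hα => absurd hα (Nat.not_lt_zero _)
    have := ordGe_mul h hf
    rwa [zero_add] at this

lemma max_pow_le (n : ℕ) (k : Type) [Field k] (m : ℕ) :
    maximalIdeal (Rn n k) ^ m ≤ ordIdeal n k m := by
  induction m with
  | zero => exact fun f _ α hα => absurd hα (Nat.not_lt_zero _)
  | succ m ih =>
    rw [pow_succ, Ideal.mul_le]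
    intro f hf g hg
    refine ordGe_mul (ih hf) ?_
    intro α hα
    have h0 : α = 0 := by
      rw [Nat.lt_one_iff] at hα
      exact (Finsupp.degree_eq_zero_iff α).1 hα
    rw [mem_max_iff] at hg
    rw [h0]
    exact hg

lemma coeff_X_mul' {n : ℕ} {k : Type} [Field k] (i : Fin n) (g : Rn n k) (α : Fin n →₀ ℕ) :
    coeff α (X i * g) = if α i = 0 then 0 else coeff (α - Finsupp.single i 1) g := by
  classical
  rw [X_def, coeff_monomial_mul, one_mul]
  by_cases h : α i = 0
  · rw [if_pos h, if_neg]
    intro h1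
    have := h1 i
    simp [h] at this
  · rw [if_neg h, if_pos]
    rw [Finsupp.single_le_iff]
    omega

/-- one step -/
lemma step_ord {n : ℕ} {k : Type} [Field k] (m : ℕ) (f : Rn n k) (hf : OrdGe (m + 1) f) :
    ∃ g : Fin n → Rn n k, (∀ i, OrdGe m (g i)) ∧ f = ∑ i, X i * g i := by
  classical
  have hch : ∀ α : Fin n →₀ ℕ, ∃ i : Option (Fin n), (α ≠ 0 → ∃ j, i = some j ∧ α j ≠ 0) := by
    intro α
    by_cases h : α = 0
    · exact ⟨none, fun h' => absurd h h'⟩
    · obtain ⟨j, hj⟩ := Finsupp.ne_iff.1 h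
      exact ⟨some j, fun _ => ⟨j, rfl, hj⟩⟩
  choose ch hch using hch
  let g : Fin n → Rn n k := fun i γ =>
    if ch (γ + Finsupp.single i 1) = some i then coeff (γ + Finsupp.single i 1) f else 0
  have hg : ∀ i γ, coeff γ (g i) =
      if ch (γ + Finsupp.single i 1) = some i then coeff (γ + Finsupp.single i 1) f else 0 :=
    fun i γ => rfl
  refine ⟨g, ?_, ?_⟩
  · intro i γ hγ
    rw [hg]
    split_ifs with h
    · refine hf _ ?_
      rw [map_add, Finsupp.degree_single]
      omega
    · rfl
  · ext α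
    rw [map_sum]
    simp only [coeff_X_mul', hg]
    by_cases h : α = 0
    · rw [h, Finset.sum_eq_zero]
      · exact hf 0 (by simp)
      · intro i _
        simp
    · obtain ⟨j, hj, hj0⟩ := hch α h
      rw [Finset.sum_eq_single j]
      · rw [if_neg hj0]
        have hle : Finsupp.single j 1 ≤ α := by
          rw [Finsupp.single_le_iff]
          omega
        rw [tsub_add_cancel_of_le hle, if_pos hj]
      · intro i _ hij
        by_cases hi : α i = 0
        · rw [if_pos hi]
        · rw [if_neg hi]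
          have hle : Finsupp.single i 1 ≤ α := by
            rw [Finsupp.single_le_iff]
            omega
          rw [tsub_add_cancel_of_le hle, if_neg]
          rw [hj]
          intro h'
          exact hij (Option.some.inj h').symm
      · intro h'
        exact absurd (Finset.mem_univ j) h'

lemma X_mem_max (k : Type) [Field k] (n : ℕ) (i : Fin n) : (X i : Rn n k) ∈ maximalIdeal (Rn n k) := by
  rw [mem_max_iff]
  simp

lemma ord_le_pow (n : ℕ) (k : Type) [Field k] (m : ℕ) (f : Rn n k) (hf : OrdGe m f) :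
    f ∈ maximalIdeal (Rn n k) ^ m := by
  induction m generalizing f with
  | zero => simp
  | succ m ih =>
    obtain ⟨g, hg, h⟩ := step_ord m f hf
    rw [h, pow_succ']
    exact Ideal.sum_mem _ fun i _ => Ideal.mul_mem_mul (X_mem_max k n i) (ih _ (hg i))

theorem t_POW : POW := fun k _ n m f => ⟨fun h => max_pow_le n k m h, ord_le_pow n k m f⟩

lemma max_eq_span (k : Type) [Field k] (n : ℕ) :
    maximalIdeal (Rn n k) = Ideal.span (Set.range X) := by
  refine le_antisymm ?_ ?_
  · intro f hf
    have h1 : OrdGe (0 + 1) f := by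
      intro α hα
      have h0 : α = 0 := by
        rw [zero_add, Nat.lt_one_iff] at hα
        exact (Finsupp.degree_eq_zero_iff α).1 hα
      rw [mem_max_iff] at hf
      rw [h0]
      exact hf
    obtain ⟨g, -, h⟩ := step_ord 0 f h1
    rw [h]
    exact Ideal.sum_mem _ fun i _ => Ideal.mul_mem_right _ _ (Ideal.subset_span ⟨i, rfl⟩)
  · rw [Ideal.span_le]
    rintro _ ⟨i, rfl⟩
    exact X_mem_max k n i

theorem t_CLO : CLO := by
  intro k _ n J f h
  have hK : (⨅ i : ℕ, maximalIdeal (Rn n k) ^ i • (⊤ : Submodule (Rn n k) (Rn n k ⧸ J))) = ⊥ :=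
    Ideal.iInf_pow_smul_eq_bot_of_isLocalRing _ (IsLocalRing.maximalIdeal.isMaximal _).ne_top
  rw [← Ideal.Quotient.eq_zero_iff_mem, ← Submodule.mem_bot (Rn n k), ← hK, Submodule.mem_iInf]
  intro m
  obtain ⟨g, hg, hm⟩ := h m
  have h2 : (f - g) • (1 : Rn n k ⧸ J) = Ideal.Quotient.mk J ((f - g) * 1) := rfl
  have h1 : Ideal.Quotient.mk J f = (f - g) • (1 : Rn n k ⧸ J) := by
    rw [h2, mul_one, map_sub, Ideal.Quotient.eq_zero_iff_mem.2 hg, sub_zero]
  rw [h1]
  exact Submodule.smul_mem_smul ((t_POW k n m _).2 hm) Submodule.mem_top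

theorem t_COMM (_ : POW) : COMM := by
  intro k _ n
  rw [max_eq_span]
  infer_instance

theorem t_COMP (_ : POW) (_ : CLO) : COMP := by
  intro k _ n z hz
  have hC : IsAdicComplete (maximalIdeal (Rn n k)) (Rn n k) := t_COMM t_POW k n
  have hle : Ideal.span {z} ≤ maximalIdeal (Rn n k) := by
    rw [Ideal.span_singleton_le_iff_mem, mem_max_iff]
    exact hz
  refine { haus' := ?_, prec' := ?_ }
  · intro x hx
    refine hC.haus' x fun m => ?_
    have h := hx m
    rw [SModEq.sub_mem] at h ⊢
    simp only [smul_eq_mul, Ideal.mul_top] at h ⊢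
    exact Ideal.pow_right_mono hle m h
  · intro f hf
    obtain ⟨L, hL⟩ := hC.prec' f (fun {m m'} hmm => by
      have h := hf hmm
      rw [SModEq.sub_mem] at h ⊢
      simp only [smul_eq_mul, Ideal.mul_top] at h ⊢
      exact Ideal.pow_right_mono hle m h)
    refine ⟨L, fun m => ?_⟩
    rw [SModEq.sub_mem]
    simp only [smul_eq_mul, Ideal.mul_top]
    refine t_CLO k n _ _ fun N => ?_
    refine ⟨f m - f (max m N), ?_, ?_⟩
    · have h := hf (le_max_left m N)
      rw [SModEq.sub_mem] at h
      simpa only [smul_eq_mul, Ideal.mul_top] using h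
    · have h := hL (max m N)
      rw [SModEq.sub_mem] at h
      simp only [smul_eq_mul, Ideal.mul_top] at h
      have h2 := (t_POW k n _ _).1 (Ideal.pow_le_pow_right (le_max_right m N) h)
      have h3 : f m - L - (f m - f (max m N)) = f (max m N) - L := by ring
      rw [h3]
      exact h2

end Pool.Agent.T2h14.FD
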